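import Pool.Agent.EGZ17.Uni

/-!
# Large sets of vectors with coordinates in `{-1, 0, 1}` with only constant zero sums, odd lengths
-/

set_option autoImplicit false

namespace Pool.Agent.EGZ17

open Finset

lemma Zs.map {m : ℕ} {G H : Type*} [AddCommGroup G] [AddCommGroup H] {x : Fin m → G} (h : Zs x)
    (f : G →+ H) : Zs (fun j => f (x j)) := by
  obtain ⟨y, hy⟩ := h
  exact ⟨f y, by rw [← map_sum, hy, map_nsmul]⟩

lemma Pair.map {m : ℕ} {G G' : Type*} [AddCommGroup G] [AddCommGroup G'] [DecidableEq G]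
    [DecidableEq G'] {A B : Finset G} (h : Pair m A B) (e : G ≃+ G') :
    Pair m (A.map e.toEquiv.toEmbedding) (B.map e.toEquiv.toEmbedding) := by
  classical
  have mem : ∀ (S : Finset G) (y : G'), y ∈ S.map e.toEquiv.toEmbedding ↔ e.symm y ∈ S := by
    intro S y
    rw [Finset.mem_map]
    constructor
    · rintro ⟨a, ha, rfl⟩
      simpa using ha
    · intro hy
      exact ⟨e.symm y, hy, by simp⟩
  have sum0 : ∀ x : Fin m → G', Zs x → Zs (fun j => e.symm (x j)) := fun x hs =>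
    hs.map e.symm.toAddMonoidHom
  refine ⟨?_, ?_, ?_, ?_⟩
  · rw [Finset.disjoint_left]
    intro y h1 h2
    rw [mem] at h1 h2
    exact h.dis _ h1 h2
  · intro x hx hs j k
    have := h.pureA (fun j => e.symm (x j)) (fun j => (mem _ _).mp (hx j)) (sum0 x hs) j k
    exact e.symm.injective this
  · intro x hx hs j k
    have := h.pureB (fun j => e.symm (x j)) (fun j => (mem _ _).mp (hx j)) (sum0 x hs) j k
    exact e.symm.injective this
  · intro x hx hs
    have := h.par (fun j => e.symm (x j)) (fun j => by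
      have := hx j
      rw [mem_union, mem, mem] at this
      rw [mem_union]; exact this) (sum0 x hs)
    have e1 : (univ.filter (fun j => x j ∈ A.map e.toEquiv.toEmbedding)).card =
        (univ.filter (fun j => e.symm (x j) ∈ A)).card := by
      congr 1; apply filter_congr; intro j _; exact mem _ _
    rw [e1]; exact this

/-- There is a parity pair with coordinates in `{-1, 0, 1}` in dimension `d` with sizes `a`, `b`. -/
def Has (d a b : ℕ) : Prop :=
  ∃ A B : Finset (Fin d → ℤ), (∀ m, Odd m → Pair m A B) ∧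
    (∀ x, x ∈ A ∨ x ∈ B → ∀ i, |x i| ≤ 1) ∧ A.card = a ∧ B.card = b

lemma has_base : Has 1 1 2 := by
  classical
  let e : ℤ ≃+ (Fin 1 → ℤ) := (AddEquiv.funUnique (Fin 1) ℤ).symm
  refine ⟨_, _, fun m hm => (base_pair hm).map e, ?_, ?_, ?_⟩
  · rintro x (hx | hx) i
    · obtain ⟨a, ha, rfl⟩ := Finset.mem_map.mp hx
      rw [mem_singleton] at ha
      subst ha
      show |(0 : ℤ)| ≤ 1
      norm_num
    · obtain ⟨a, ha, rfl⟩ := Finset.mem_map.mp hx
      show |a| ≤ 1
      rw [mem_insert, mem_singleton] at ha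
      rcases ha with rfl | rfl <;> norm_num
  · rw [card_map]; simp
  · rw [card_map]; rfl

/-- `(g, h, k) ↦ (g, k, h_0, h_1, ...)`. -/
def glue (d : ℕ) : (ℤ × (Fin d → ℤ) × ℤ) ≃+ (Fin (d + 2) → ℤ) where
  toFun t := Fin.cons t.1 (Fin.cons t.2.2 t.2.1 : Fin (d + 1) → ℤ)
  invFun v := (v 0, (fun i => v i.succ.succ), v 1)
  left_inv t := by
    refine Prod.ext rfl (Prod.ext ?_ rfl)
    funext i
    rfl
  right_inv v := by
    funext i
    refine Fin.cases rfl (fun j => ?_) i
    refine Fin.cases rfl (fun k => ?_) j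
    rfl
  map_add' s t := by
    funext i
    refine Fin.cases rfl (fun j => ?_) i
    refine Fin.cases rfl (fun k => ?_) j
    rfl

lemma glue_le {d : ℕ} {t : ℤ × (Fin d → ℤ) × ℤ} (h1 : |t.1| ≤ 1) (h2 : ∀ i, |t.2.1 i| ≤ 1)
    (h3 : |t.2.2| ≤ 1) (i : Fin (d + 2)) : |glue d t i| ≤ 1 := by
  refine Fin.cases h1 (fun j => ?_) i
  refine Fin.cases h3 (fun k => ?_) j
  exact h2 k

lemma Has.step {d a b : ℕ} (h : Has d a b) : Has (d + 2) (2 * a + 2 * b) (4 * a + 2 * b) := by
  classical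
  obtain ⟨A, B, hP, hc, hA, hB⟩ := h
  have hU : ∀ k : ℤ, k ∈ ({1, -1} : Finset ℤ) → |k| ≤ 1 := by
    intro k hk
    rw [mem_insert, mem_singleton] at hk
    rcases hk with rfl | rfl <;> norm_num
  have hZ : ∀ k : ℤ, k ∈ ({0} : Finset ℤ) → |k| ≤ 1 := by
    intro k hk
    rw [mem_singleton] at hk
    subst hk
    norm_num
  refine ⟨_, _, fun m hm =>
    (_root_.Pool.Agent.EGZ17.step hm (base_pair hm) (hP m hm) (base_pair hm)).map (glue d),
    ?_, ?_, ?_⟩
  · rintro x (hx | hx) i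
    · obtain ⟨t, ht, rfl⟩ := Finset.mem_map.mp hx
      rw [mem_newA] at ht
      rcases ht with ⟨h1, h2, h3⟩ | ⟨h1, h2, h3⟩
      · exact glue_le (hZ _ h1) (hc _ (Or.inl h2)) (hU _ h3) i
      · exact glue_le (hU _ h1) (hc _ (Or.inr h2)) (hZ _ h3) i
    · obtain ⟨t, ht, rfl⟩ := Finset.mem_map.mp hx
      rw [mem_newB] at ht
      rcases ht with ⟨h1, h2, h3⟩ | ⟨h1, h2, h3⟩
      · exact glue_le (hZ _ h1) (hc _ (Or.inr h2)) (hU _ h3) i
      · exact glue_le (hU _ h1) (hc _ (Or.inl h2)) (hU _ h3) i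
  · rw [card_map, newA, card_union_of_disjoint]
    · rw [card_product, card_product, card_product, card_product, hA, hB, card_singleton,
        show ({1, -1} : Finset ℤ).card = 2 from rfl]
      ring
    · rw [Finset.disjoint_left]
      intro y h1 h2
      rw [mem_product] at h1 h2
      exact (base_pair (m := 1) odd_one).dis _ h1.1 h2.1
  · rw [card_map, newB, card_union_of_disjoint]
    · rw [card_product, card_product, card_product, card_product, hA, hB, card_singleton,
        show ({1, -1} : Finset ℤ).card = 2 from rfl]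
      ring
    · rw [Finset.disjoint_left]
      intro y h1 h2
      rw [mem_product] at h1 h2
      exact (base_pair (m := 1) odd_one).dis _ h1.1 h2.1

/-- For each odd `m`, a sequence of `m` members of `X` whose sum is divisible by `m` is constant. -/
def Good {n : ℕ} (X : Finset (Fin n → ℤ)) : Prop :=
  ∀ m : ℕ, Odd m → ∀ x : Fin m → (Fin n → ℤ), (∀ j, x j ∈ X) →
    (∀ i, (m : ℤ) ∣ ∑ j, x j i) → ∀ j k, x j = x k

lemma Zs.of_dvd {m n : ℕ} {x : Fin m → (Fin n → ℤ)} (h : ∀ i, (m : ℤ) ∣ ∑ j, x j i) : Zs x := by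
  choose y hy using h
  refine ⟨y, ?_⟩
  funext i
  rw [Finset.sum_apply, hy i, Pi.smul_apply, nsmul_eq_mul]

lemma Has.good {d a b : ℕ} (h : Has d a b) :
    ∃ X : Finset (Fin d → ℤ), (∀ x ∈ X, ∀ i, |x i| ≤ 1) ∧ Good X ∧ X.card = b := by
  obtain ⟨A, B, hP, hc, hA, hB⟩ := h
  exact ⟨B, fun x hx => hc x (Or.inr hx), fun m hm x hx hd => (hP m hm).pureB x hx (Zs.of_dvd hd),
    hB⟩

/-- One more coordinate with values `0`, `1`. -/
lemma good_double {n : ℕ} (X : Finset (Fin n → ℤ)) (h1 : ∀ x ∈ X, ∀ i, |x i| ≤ 1) (h2 : Good X) :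
    ∃ Y : Finset (Fin (n + 1) → ℤ), (∀ x ∈ Y, ∀ i, |x i| ≤ 1) ∧ Good Y ∧
      Y.card = 2 * X.card := by
  classical
  refine ⟨(({0, 1} : Finset ℤ) ×ˢ X).map (Fin.consEquiv (fun _ : Fin (n + 1) => ℤ)).toEmbedding,
    ?_, ?_, ?_⟩
  · intro x hx i
    obtain ⟨t, ht, rfl⟩ := Finset.mem_map.mp hx
    rw [mem_product, mem_insert, mem_singleton] at ht
    refine Fin.cases ?_ (fun j => ?_) i
    · show |t.1| ≤ 1
      rcases ht.1 with h | h <;> rw [h] <;> norm_num
    · show |t.2 j| ≤ 1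
      exact h1 _ ht.2 j
  · intro m hm x hx hd
    have hx' : ∀ j, (x j 0 = 0 ∨ x j 0 = 1) ∧ (fun i : Fin n => x j i.succ) ∈ X := by
      intro j
      obtain ⟨t, ht, hj⟩ := Finset.mem_map.mp (hx j)
      rw [mem_product, mem_insert, mem_singleton] at ht
      have e0 : x j 0 = t.1 := by rw [← hj]; rfl
      have e1 : (fun i : Fin n => x j i.succ) = t.2 := by rw [← hj]; rfl
      rw [e0, e1]
      exact ht
    have ht := h2 m hm (fun j i => x j i.succ) (fun j => (hx' j).2) (fun i => hd i.succ)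
    have hs : ∀ j k, x j 0 = x k 0 := by
      obtain ⟨c, hc⟩ := hd 0
      have hn : ∀ j, 0 ≤ x j 0 := fun j => by rcases (hx' j).1 with h | h <;> omega
      have hn' : ∀ j, 0 ≤ 1 - x j 0 := fun j => by
        rcases (hx' j).1 with h | h <;> omega
      have s1 : 0 ≤ ∑ j, x j 0 := Finset.sum_nonneg fun j _ => hn j
      have s2 : ∑ j, (1 - x j 0) = m - ∑ j, x j 0 := by
        rw [Finset.sum_sub_distrib]
        simp
      have s3 : 0 ≤ ∑ j, (1 - x j 0) := Finset.sum_nonneg fun j _ => hn' j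
      have hm0 : (0 : ℤ) < m := by exact_mod_cast hm.pos
      have c0 : 0 ≤ c := by
        by_contra hcon
        have : (m : ℤ) * c < 0 := mul_neg_of_pos_of_neg hm0 (by omega)
        omega
      have c1 : c ≤ 1 := by
        by_contra hcon
        have : (m : ℤ) * 2 ≤ m * c := mul_le_mul_of_nonneg_left (by omega) hm0.le
        omega
      have hcc : c = 0 ∨ c = 1 := by omega
      rcases hcc with rfl | rfl
      · have h0 : ∑ j, x j 0 = 0 := by rw [hc]; ring
        have := (Finset.sum_eq_zero_iff_of_nonneg fun j _ => hn j).mp h0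
        intro j k
        rw [this j (mem_univ _), this k (mem_univ _)]
      · have h0 : ∑ j, (1 - x j 0) = 0 := by rw [s2, hc]; ring
        have := (Finset.sum_eq_zero_iff_of_nonneg fun j _ => hn' j).mp h0
        intro j k
        have a1 := this j (mem_univ _)
        have a2 := this k (mem_univ _)
        omega
    intro j k
    funext i
    refine Fin.cases (hs j k) (fun l => ?_) i
    exact congrFun (ht j k) l
  · rw [card_map, card_product]
    rfl

/-! ### The sizes -/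

/-- `ρ = √(2 + 2√2) = 2.1973...`. -/
noncomputable def rho : ℝ := √(2 + 2 * √2)

lemma rho_sq : rho ^ 2 = 2 + 2 * √2 := by
  rw [rho, Real.sq_sqrt (by positivity)]

lemma rho_pos : 0 < rho := by
  rw [rho]; positivity

lemma sqrt_two_sq : √2 * √2 = (2 : ℝ) := Real.mul_self_sqrt (by norm_num)

lemma one_le_sqrt_two : (1 : ℝ) ≤ √2 := by
  rw [show (1 : ℝ) = √1 by rw [Real.sqrt_one]]
  exact Real.sqrt_le_sqrt (by norm_num)

lemma sqrt_two_le : √2 ≤ (1.415 : ℝ) := by
  rw [Real.sqrt_le_left (by norm_num)]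
  norm_num

lemma two_le_rho : 2 ≤ rho := by
  nlinarith [rho_sq, rho_pos, one_le_sqrt_two]

lemma sizes (k : ℕ) : ∃ a b : ℕ, Has (2 * k + 1) a b ∧ (rho ^ 2) ^ (k + 1) / 3 ≤ b ∧
    (rho ^ 2) ^ (k + 2) / 3 ≤ 4 * a + 2 * b := by
  have h2 := sqrt_two_sq
  have h3 := sqrt_two_le
  have hL := rho_sq
  obtain ⟨L, hLd⟩ : ∃ L, L = rho ^ 2 := ⟨_, rfl⟩
  rw [← hLd] at hL ⊢
  have hq : L ^ 2 = 4 * L + 4 := by
    rw [hL]
    nlinarith [h2]
  induction k with
  | zero =>
    refine ⟨1, 2, has_base, ?_, ?_⟩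
    · rw [zero_add, pow_one, hL]
      push_cast
      linarith
    · rw [zero_add, hq, hL]
      push_cast
      linarith
  | succ k ih =>
    obtain ⟨a, b, hH, h4, h5⟩ := ih
    refine ⟨2 * a + 2 * b, 4 * a + 2 * b, ?_, ?_, ?_⟩
    · rw [show 2 * (k + 1) + 1 = 2 * k + 1 + 2 by ring]
      exact hH.step
    · push_cast
      exact h5
    · push_cast
      have e : L ^ (k + 1 + 2) = 4 * L ^ (k + 2) + 4 * L ^ (k + 1) := by
        rw [pow_add L (k + 1) 2, hq]
        ring
      rw [e]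
      linarith

/-- One set for all odd lengths. -/
theorem exists_good (n : ℕ) : ∃ X : Finset (Fin n → ℤ), (∀ x ∈ X, ∀ i, |x i| ≤ 1) ∧ Good X ∧
    2 / 3 * rho ^ n ≤ X.card := by
  rcases Nat.even_or_odd' n with ⟨k, hk | hk⟩
  · rcases Nat.eq_zero_or_pos k with rfl | hk0
    · subst hk
      refine ⟨{0}, ?_, ?_, ?_⟩
      · intro x _ i
        exact i.elim0
      · intro m hm x hx _ j k
        have h1 := hx j
        have h2 := hx k
        rw [mem_singleton] at h1 h2
        rw [h1, h2]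
      · rw [card_singleton]
        norm_num
    · obtain ⟨l, rfl⟩ : ∃ l, k = l + 1 := ⟨k - 1, by omega⟩
      obtain ⟨a, b, hH, h4, h5⟩ := sizes l
      obtain ⟨X, h6, h7, h8⟩ := hH.good
      obtain ⟨Y, h9, h10, h11⟩ := good_double X h6 h7
      have e : n = 2 * l + 1 + 1 := by omega
      subst e
      refine ⟨Y, h9, h10, ?_⟩
      rw [h11, h8]
      push_cast
      have e2 : rho ^ (2 * l + 1 + 1) = (rho ^ 2) ^ (l + 1) := by
        rw [← pow_mul]
        congr 1
      rw [e2]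
      linarith
  · obtain ⟨a, b, hH, h4, h5⟩ := sizes k
    obtain ⟨X, h6, h7, h8⟩ := hH.good
    subst hk
    refine ⟨X, h6, h7, ?_⟩
    rw [h8]
    have e2 : (rho ^ 2) ^ (k + 1) = rho ^ (2 * k + 1) * rho := by
      rw [← pow_mul, ← pow_succ]
      congr 1
    rw [e2] at h4
    have h9 : rho ^ (2 * k + 1) * 2 ≤ rho ^ (2 * k + 1) * rho :=
      mul_le_mul_of_nonneg_left two_le_rho (pow_nonneg rho_pos.le _)
    linarith

end Pool.Agent.EGZ17
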