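import Mathlib

/-!
# Parity pairs for all odd lengths at once

A *parity pair* `(A, B)` in an abelian group `G`: two disjoint finite sets such that, for every odd
`m`, each sequence of `m` members of `A` whose sum is a multiple of `m` in `G` is constant, the same
for `B`, and each sequence of `m` members of `A ∪ B` whose sum is a multiple of `m` has no term or an
odd number of terms in `A`.
-/

set_option autoImplicit false

namespace Pool.Agent.EGZ17

open Finset

/-- The sum of the sequence is `m` times an element. -/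
def Zs {m : ℕ} {G : Type*} [AddCommGroup G] (x : Fin m → G) : Prop := ∃ y : G, ∑ j, x j = m • y

/-- Parity pairs for sequences of length `m`. -/
structure Pair (m : ℕ) {G : Type*} [AddCommGroup G] [DecidableEq G] (A B : Finset G) : Prop where
  disj : Disjoint A B
  pureA : ∀ x : Fin m → G, (∀ j, x j ∈ A) → Zs x → ∀ j k, x j = x k
  pureB : ∀ x : Fin m → G, (∀ j, x j ∈ B) → Zs x → ∀ j k, x j = x k
  par : ∀ x : Fin m → G, (∀ j, x j ∈ A ∪ B) → Zs x →
    (univ.filter (fun j => x j ∈ A)).card = 0 ∨ Odd (univ.filter (fun j => x j ∈ A)).card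

section Step

variable {m : ℕ} {G H K : Type*} [AddCommGroup G] [AddCommGroup H] [AddCommGroup K]
    [DecidableEq G] [DecidableEq H] [DecidableEq K] {A B : Finset G} {C D : Finset H}
    {Z U : Finset K}

lemma Pair.dis {G : Type*} [AddCommGroup G] [DecidableEq G] {A B : Finset G} (h : Pair m A B) :
    ∀ y, y ∈ A → y ∈ B → False := fun _ h1 h2 => (Finset.disjoint_left.mp h.disj) h1 h2

omit [DecidableEq G] [DecidableEq H] [DecidableEq K] in
lemma proj (x : Fin m → G × H × K) (hs : Zs x) :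
    Zs (fun j => (x j).1) ∧ Zs (fun j => (x j).2.1) ∧ Zs (fun j => (x j).2.2) := by
  obtain ⟨y, hy⟩ := hs
  refine ⟨⟨y.1, ?_⟩, ⟨y.2.1, ?_⟩, ⟨y.2.2, ?_⟩⟩
  · have := congrArg Prod.fst hy
    rwa [Prod.fst_sum] at this
  · have := congrArg (fun y => y.2.1) hy
    simpa [Prod.snd_sum, Prod.fst_sum] using this
  · have := congrArg (fun y => y.2.2) hy
    simpa [Prod.snd_sum, Prod.fst_sum] using this

/-- The four types of a vector in the union of the two new sets. -/
def Types (A B : Finset G) (C D : Finset H) (Z U : Finset K) (x : Fin m → G × H × K) : Prop :=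
  ∀ j, ((x j).1 ∈ A ∧ (x j).2.1 ∈ C ∧ (x j).2.2 ∈ U) ∨
        ((x j).1 ∈ B ∧ (x j).2.1 ∈ D ∧ (x j).2.2 ∈ Z) ∨
        ((x j).1 ∈ A ∧ (x j).2.1 ∈ D ∧ (x j).2.2 ∈ U) ∨
        ((x j).1 ∈ B ∧ (x j).2.1 ∈ C ∧ (x j).2.2 ∈ U)

/-- The counting relations. -/
lemma counts (h : Pair m A B) (h' : Pair m C D) (h0 : Pair m Z U) (x : Fin m → G × H × K)
    (hx' : Types A B C D Z U x) (hs : Zs x) :
      ∃ n11 n10 n01 n00 : ℕ,
        n11 = (univ.filter (fun j => (x j).1 ∈ A ∧ (x j).2.1 ∈ C)).card ∧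
        n10 = (univ.filter (fun j => (x j).1 ∈ A ∧ (x j).2.1 ∈ D)).card ∧
        n01 = (univ.filter (fun j => (x j).1 ∈ B ∧ (x j).2.1 ∈ C)).card ∧
        n00 = (univ.filter (fun j => (x j).1 ∈ B ∧ (x j).2.1 ∈ D)).card ∧
        n11 + n10 + n01 + n00 = m ∧
        (n11 + n10 = 0 ∨ Odd (n11 + n10)) ∧ (n11 + n01 = 0 ∨ Odd (n11 + n01)) ∧
        (n00 = 0 ∨ Odd n00) := by
  classical
  have dAB := h.dis
  have dCD := h'.dis
  have dZU := h0.dis
  obtain ⟨hs1, hs2, hs3⟩ := proj x hs
  have p1 := h.par (fun j => (x j).1) (fun j => by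
    rw [mem_union]; rcases hx' j with h | h | h | h <;> tauto) hs1
  have p2 := h'.par (fun j => (x j).2.1) (fun j => by
    rw [mem_union]; rcases hx' j with h | h | h | h <;> tauto) hs2
  have p3 := h0.par (fun j => (x j).2.2) (fun j => by
    rw [mem_union]; rcases hx' j with h | h | h | h <;> tauto) hs3
  refine ⟨_, _, _, _, rfl, rfl, rfl, rfl, ?_, ?_, ?_, ?_⟩
  · have hm : (∑ _j : Fin m, 1) = m := by simp
    refine Eq.trans ?_ hm
    simp only [card_filter, ← sum_add_distrib]
    apply sum_congr rfl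
    intro j _
    rcases hx' j with ⟨h1, h2, h3⟩ | ⟨h1, h2, h3⟩ | ⟨h1, h2, h3⟩ | ⟨h1, h2, h3⟩
    · have e1 : (x j).1 ∉ B := fun h => dAB _ h1 h
      have e2 : (x j).2.1 ∉ D := fun h => dCD _ h2 h
      simp [h1, h2, e1, e2]
    · have e1 : (x j).1 ∉ A := fun h => dAB _ h h1
      have e2 : (x j).2.1 ∉ C := fun h => dCD _ h h2
      simp [h1, h2, e1, e2]
    · have e1 : (x j).1 ∉ B := fun h => dAB _ h1 h
      have e2 : (x j).2.1 ∉ C := fun h => dCD _ h h2
      simp [h1, h2, e1, e2]
    · have e1 : (x j).1 ∉ A := fun h => dAB _ h h1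
      have e2 : (x j).2.1 ∉ D := fun h => dCD _ h2 h
      simp [h1, h2, e1, e2]
  · have e : (univ.filter (fun j => (x j).1 ∈ A ∧ (x j).2.1 ∈ C)).card +
        (univ.filter (fun j => (x j).1 ∈ A ∧ (x j).2.1 ∈ D)).card =
        (univ.filter (fun j => (x j).1 ∈ A)).card := by
      simp only [card_filter, ← sum_add_distrib]
      apply sum_congr rfl
      intro j _
      rcases hx' j with ⟨h1, h2, h3⟩ | ⟨h1, h2, h3⟩ | ⟨h1, h2, h3⟩ | ⟨h1, h2, h3⟩
      · have e2 : (x j).2.1 ∉ D := fun h => dCD _ h2 h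
        simp [h1, h2, e2]
      · have e1 : (x j).1 ∉ A := fun h => dAB _ h h1
        simp [e1]
      · have e2 : (x j).2.1 ∉ C := fun h => dCD _ h h2
        simp [h1, h2, e2]
      · have e1 : (x j).1 ∉ A := fun h => dAB _ h h1
        simp [e1]
    rw [e]; exact p1
  · have e : (univ.filter (fun j => (x j).1 ∈ A ∧ (x j).2.1 ∈ C)).card +
        (univ.filter (fun j => (x j).1 ∈ B ∧ (x j).2.1 ∈ C)).card =
        (univ.filter (fun j => (x j).2.1 ∈ C)).card := by
      simp only [card_filter, ← sum_add_distrib]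
      apply sum_congr rfl
      intro j _
      rcases hx' j with ⟨h1, h2, h3⟩ | ⟨h1, h2, h3⟩ | ⟨h1, h2, h3⟩ | ⟨h1, h2, h3⟩
      · have e2 : (x j).1 ∉ B := fun h => dAB _ h1 h
        simp [h1, h2, e2]
      · have e1 : (x j).2.1 ∉ C := fun h => dCD _ h h2
        simp [e1]
      · have e2 : (x j).2.1 ∉ C := fun h => dCD _ h h2
        simp [e2]
      · have e1 : (x j).1 ∉ A := fun h => dAB _ h h1
        simp [h1, h2, e1]
    rw [e]; exact p2
  · have e : (univ.filter (fun j => (x j).1 ∈ B ∧ (x j).2.1 ∈ D)).card =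
        (univ.filter (fun j => (x j).2.2 ∈ Z)).card := by
      congr 1
      apply filter_congr
      intro j _
      rcases hx' j with ⟨h1, h2, h3⟩ | ⟨h1, h2, h3⟩ | ⟨h1, h2, h3⟩ | ⟨h1, h2, h3⟩
      · exact ⟨fun h => (dAB _ h1 h.1).elim, fun h => (dZU _ h h3).elim⟩
      · exact ⟨fun _ => h3, fun _ => ⟨h1, h2⟩⟩
      · exact ⟨fun h => (dAB _ h1 h.1).elim, fun h => (dZU _ h h3).elim⟩
      · exact ⟨fun h => (dCD _ h2 h.2).elim, fun h => (dZU _ h h3).elim⟩
    rw [e]; exact p3

/-- New first set. -/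
def newA (A B : Finset G) (C D : Finset H) (Z U : Finset K) : Finset (G × H × K) :=
  (A ×ˢ C ×ˢ U) ∪ (B ×ˢ D ×ˢ Z)

/-- New second set. -/
def newB (A B : Finset G) (C D : Finset H) (U : Finset K) : Finset (G × H × K) :=
  (A ×ˢ D ×ˢ U) ∪ (B ×ˢ C ×ˢ U)

omit [AddCommGroup G] [AddCommGroup H] [AddCommGroup K] in
lemma mem_newA {y : G × H × K} : y ∈ newA A B C D Z U ↔
    (y.1 ∈ A ∧ y.2.1 ∈ C ∧ y.2.2 ∈ U) ∨ (y.1 ∈ B ∧ y.2.1 ∈ D ∧ y.2.2 ∈ Z) := by
  simp only [newA, mem_union, mem_product]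

omit [AddCommGroup G] [AddCommGroup H] [AddCommGroup K] in
lemma mem_newB {y : G × H × K} : y ∈ newB A B C D U ↔
    (y.1 ∈ A ∧ y.2.1 ∈ D ∧ y.2.2 ∈ U) ∨ (y.1 ∈ B ∧ y.2.1 ∈ C ∧ y.2.2 ∈ U) := by
  simp only [newB, mem_union, mem_product]

lemma step_pureA (hm : Odd m) (h : Pair m A B) (h' : Pair m C D) (h0 : Pair m Z U) (x : Fin m → G × H × K)
    (hx : ∀ j, x j ∈ newA A B C D Z U) (hs : Zs x) : ∀ j k, x j = x k := by
  have dAB := h.dis
  have dCD := h'.dis
  have hx' : ∀ j, ((x j).1 ∈ A ∧ (x j).2.1 ∈ C ∧ (x j).2.2 ∈ U) ∨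
      ((x j).1 ∈ B ∧ (x j).2.1 ∈ D ∧ (x j).2.2 ∈ Z) := fun j => mem_newA.mp (hx j)
  obtain ⟨n11, n10, n01, n00, e11, e10, e01, e00, hsum, q1, q2, q3⟩ :=
    counts h h' h0 x (fun j => by rcases hx' j with h | h <;> tauto) hs
  obtain ⟨s1, s2, s3⟩ := proj x hs
  have z10 : n10 = 0 := by
    rw [e10, card_eq_zero, filter_eq_empty_iff]
    intro j _ hj
    rcases hx' j with ⟨h1, h2, h3⟩ | ⟨h1, h2, h3⟩
    · exact dCD _ h2 hj.2
    · exact dAB _ hj.1 h1
  have z01 : n01 = 0 := by
    rw [e01, card_eq_zero, filter_eq_empty_iff]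
    intro j _ hj
    rcases hx' j with ⟨h1, h2, h3⟩ | ⟨h1, h2, h3⟩
    · exact dAB _ h1 hj.1
    · exact dCD _ hj.2 h2
  have hcase : n11 = 0 ∨ n00 = 0 := by
    rcases q1 with q1 | q1
    · left; omega
    · rcases q3 with q3 | q3
      · right; exact q3
      · exfalso
        obtain ⟨a, ha⟩ := q1
        obtain ⟨b, hb⟩ := q3
        obtain ⟨c, hc⟩ := hm
        omega
  rcases hcase with hz | hz
  · have all : ∀ j, (x j).1 ∈ B ∧ (x j).2.1 ∈ D ∧ (x j).2.2 ∈ Z := by
      intro j
      rcases hx' j with ⟨h1, h2, h3⟩ | h'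
      · exfalso
        rw [e11, card_eq_zero, filter_eq_empty_iff] at hz
        exact hz (mem_univ j) ⟨h1, h2⟩
      · exact h'
    intro j k
    exact Prod.ext (h.pureB _ (fun j => (all j).1) s1 j k)
      (Prod.ext (h'.pureB _ (fun j => (all j).2.1) s2 j k)
        (h0.pureA _ (fun j => (all j).2.2) s3 j k))
  · have all : ∀ j, (x j).1 ∈ A ∧ (x j).2.1 ∈ C ∧ (x j).2.2 ∈ U := by
      intro j
      rcases hx' j with h' | ⟨h1, h2, h3⟩
      · exact h'
      · exfalso
        rw [e00, card_eq_zero, filter_eq_empty_iff] at hz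
        exact hz (mem_univ j) ⟨h1, h2⟩
    intro j k
    exact Prod.ext (h.pureA _ (fun j => (all j).1) s1 j k)
      (Prod.ext (h'.pureA _ (fun j => (all j).2.1) s2 j k)
        (h0.pureB _ (fun j => (all j).2.2) s3 j k))

lemma step_pureB (hm : Odd m) (h : Pair m A B) (h' : Pair m C D) (h0 : Pair m Z U) (x : Fin m → G × H × K)
    (hx : ∀ j, x j ∈ newB A B C D U) (hs : Zs x) : ∀ j k, x j = x k := by
  have dAB := h.dis
  have dCD := h'.dis
  have hx' : ∀ j, ((x j).1 ∈ A ∧ (x j).2.1 ∈ D ∧ (x j).2.2 ∈ U) ∨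
      ((x j).1 ∈ B ∧ (x j).2.1 ∈ C ∧ (x j).2.2 ∈ U) := fun j => mem_newB.mp (hx j)
  obtain ⟨n11, n10, n01, n00, e11, e10, e01, e00, hsum, q1, q2, q3⟩ :=
    counts h h' h0 x (fun j => by rcases hx' j with h | h <;> tauto) hs
  obtain ⟨s1, s2, s3⟩ := proj x hs
  have z11 : n11 = 0 := by
    rw [e11, card_eq_zero, filter_eq_empty_iff]
    intro j _ hj
    rcases hx' j with ⟨h1, h2, h3⟩ | ⟨h1, h2, h3⟩
    · exact dCD _ hj.2 h2
    · exact dAB _ hj.1 h1
  have z00 : n00 = 0 := by
    rw [e00, card_eq_zero, filter_eq_empty_iff]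
    intro j _ hj
    rcases hx' j with ⟨h1, h2, h3⟩ | ⟨h1, h2, h3⟩
    · exact dAB _ h1 hj.1
    · exact dCD _ h2 hj.2
  have hcase : n10 = 0 ∨ n01 = 0 := by
    rcases q1 with q1 | q1
    · left; omega
    · rcases q2 with q2 | q2
      · right; omega
      · exfalso
        obtain ⟨a, ha⟩ := q1
        obtain ⟨b, hb⟩ := q2
        obtain ⟨c, hc⟩ := hm
        omega
  rcases hcase with hz | hz
  · have all : ∀ j, (x j).1 ∈ B ∧ (x j).2.1 ∈ C ∧ (x j).2.2 ∈ U := by
      intro j
      rcases hx' j with ⟨h1, h2, h3⟩ | h'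
      · exfalso
        rw [e10, card_eq_zero, filter_eq_empty_iff] at hz
        exact hz (mem_univ j) ⟨h1, h2⟩
      · exact h'
    intro j k
    exact Prod.ext (h.pureB _ (fun j => (all j).1) s1 j k)
      (Prod.ext (h'.pureA _ (fun j => (all j).2.1) s2 j k)
        (h0.pureB _ (fun j => (all j).2.2) s3 j k))
  · have all : ∀ j, (x j).1 ∈ A ∧ (x j).2.1 ∈ D ∧ (x j).2.2 ∈ U := by
      intro j
      rcases hx' j with h' | ⟨h1, h2, h3⟩
      · exact h'
      · exfalso
        rw [e01, card_eq_zero, filter_eq_empty_iff] at hz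
        exact hz (mem_univ j) ⟨h1, h2⟩
    intro j k
    exact Prod.ext (h.pureA _ (fun j => (all j).1) s1 j k)
      (Prod.ext (h'.pureB _ (fun j => (all j).2.1) s2 j k)
        (h0.pureB _ (fun j => (all j).2.2) s3 j k))

/-- The recursive step. -/
lemma step (hm : Odd m) (h : Pair m A B) (h' : Pair m C D) (h0 : Pair m Z U) :
    Pair m (newA A B C D Z U) (newB A B C D U) := by
  classical
  have dAB := h.dis
  have dCD := h'.dis
  refine ⟨?_, step_pureA hm h h' h0, step_pureB hm h h' h0, ?_⟩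
  · rw [Finset.disjoint_left]
    intro y h1 h2
    rw [mem_newA] at h1
    rw [mem_newB] at h2
    rcases h1 with ⟨ha, hb, hc⟩ | ⟨ha, hb, hc⟩ <;> rcases h2 with ⟨ha', hb', hc'⟩ | ⟨ha', hb', hc'⟩
    · exact dCD _ hb hb'
    · exact dAB _ ha ha'
    · exact dAB _ ha' ha
    · exact dCD _ hb' hb
  · intro x hx hs
    have hx' : Types A B C D Z U x := by
      intro j
      have := hx j
      rw [mem_union, mem_newA, mem_newB] at this
      tauto
    obtain ⟨n11, n10, n01, n00, e11, e10, e01, e00, hsum, q1, q2, q3⟩ := counts h h' h0 x hx' hs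
    have e : (univ.filter (fun j => x j ∈ newA A B C D Z U)).card = n11 + n00 := by
      rw [e11, e00]
      simp only [card_filter, ← sum_add_distrib]
      apply sum_congr rfl
      intro j _
      simp only [mem_newA]
      rcases hx' j with ⟨h1, h2, h3⟩ | ⟨h1, h2, h3⟩ | ⟨h1, h2, h3⟩ | ⟨h1, h2, h3⟩
      · have e1 : (x j).1 ∉ B := fun h => dAB _ h1 h
        simp [h1, h2, h3, e1]
      · have e1 : (x j).1 ∉ A := fun h => dAB _ h h1
        simp [h1, h2, h3, e1]
      · have e1 : (x j).1 ∉ B := fun h => dAB _ h1 h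
        have e2 : (x j).2.1 ∉ C := fun h => dCD _ h h2
        simp [e1, e2]
      · have e1 : (x j).1 ∉ A := fun h => dAB _ h h1
        have e2 : (x j).2.1 ∉ D := fun h => dCD _ h2 h
        simp [e1, e2]
    rw [e]
    rcases q1 with q1 | q1
    · -- `n11 = n10 = 0`
      rcases q3 with q3 | q3
      · left; omega
      · right; obtain ⟨b, hb⟩ := q3; exact ⟨b, by omega⟩
    · rcases q2 with q2 | q2
      · rcases q3 with q3 | q3
        · left; omega
        · right; obtain ⟨b, hb⟩ := q3; exact ⟨b, by omega⟩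
      · right
        obtain ⟨a, ha⟩ := q1
        obtain ⟨b, hb⟩ := q2
        obtain ⟨c, hc⟩ := hm
        exact Nat.odd_iff.mpr (by omega)

end Step

/-! ### The base pair `({0}, {1, -1})` in the integers -/

lemma base_count {m : ℕ} (hm0 : 0 < m) (x : Fin m → ℤ)
    (hx : ∀ j, x j = 0 ∨ x j = 1 ∨ x j = -1) (hs : Zs x) :
    ∃ n0 np nm : ℕ, n0 = (univ.filter (fun j => x j = 0)).card ∧
      np = (univ.filter (fun j => x j = 1)).card ∧ nm = (univ.filter (fun j => x j = -1)).card ∧
      n0 + np + nm = m ∧ (np = nm ∨ np = m ∨ nm = m) := by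
  classical
  have hm : (univ.filter (fun j => x j = 0)).card + (univ.filter (fun j => x j = 1)).card +
      (univ.filter (fun j => x j = -1)).card = m := by
    have hm : (∑ _j : Fin m, 1) = m := by simp
    refine Eq.trans ?_ hm
    simp only [card_filter, ← sum_add_distrib]
    apply sum_congr rfl
    intro j _
    rcases hx j with h | h | h <;> simp [h]
  refine ⟨_, _, _, rfl, rfl, rfl, hm, ?_⟩
  obtain ⟨k, hk⟩ := hs
  have hsum : ((univ.filter (fun j => x j = 1)).card : ℤ) -
      ((univ.filter (fun j => x j = -1)).card : ℤ) = m * k := by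
    rw [nsmul_eq_mul] at hk
    rw [← hk]
    simp only [card_filter]
    push_cast
    rw [← sum_sub_distrib]
    apply sum_congr rfl
    intro j _
    rcases hx j with h | h | h <;> simp [h]
  generalize (univ.filter (fun j => x j = 1)).card = a at *
  generalize (univ.filter (fun j => x j = -1)).card = b at *
  generalize (univ.filter (fun j => x j = 0)).card = c at *
  have hk1 : k < 2 := by
    by_contra hk2
    rw [not_lt] at hk2
    have : (m : ℤ) * k ≥ m * 2 := by
      apply mul_le_mul_of_nonneg_left hk2; positivity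
    omega
  have hk1' : -2 < k := by
    by_contra hk2
    rw [not_lt] at hk2
    have : (m : ℤ) * k ≤ m * (-2) := by
      apply mul_le_mul_of_nonneg_left hk2; positivity
    omega
  have hk3 : k = -1 ∨ k = 0 ∨ k = 1 := by omega
  rcases hk3 with rfl | rfl | rfl
  · right; right; omega
  · left; omega
  · right; left; omega

lemma base_pair {m : ℕ} (hm : Odd m) : Pair m ({0} : Finset ℤ) ({1, -1} : Finset ℤ) := by
  classical
  have hm0 : 0 < m := hm.pos
  refine ⟨by decide, ?_, ?_, ?_⟩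
  · intro x hx _ j k
    have h1 := hx j
    have h2 := hx k
    simp only [mem_singleton] at h1 h2
    rw [h1, h2]
  · intro x hx hs
    have hx' : ∀ j, x j = 1 ∨ x j = -1 := by
      intro j; have := hx j; simpa only [mem_insert, mem_singleton] using this
    obtain ⟨n0, np, nm, e0, ep, em, hsum, hc⟩ := base_count hm0 x
      (fun j => by rcases hx' j with h | h <;> tauto) hs
    have z0 : n0 = 0 := by
      rw [e0, card_eq_zero, filter_eq_empty_iff]
      intro j _ hj
      rcases hx' j with h | h <;> rw [h] at hj <;> norm_num at hj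
    have hc' : nm = 0 ∨ np = 0 := by
      obtain ⟨c, hc1⟩ := hm
      omega
    rcases hc' with hz | hz
    · have all : ∀ j, x j = 1 := by
        intro j
        rcases hx' j with h | h
        · exact h
        · exfalso
          rw [em, card_eq_zero, filter_eq_empty_iff] at hz
          exact hz (mem_univ j) h
      intro j k
      rw [all j, all k]
    · have all : ∀ j, x j = -1 := by
        intro j
        rcases hx' j with h | h
        · exfalso
          rw [ep, card_eq_zero, filter_eq_empty_iff] at hz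
          exact hz (mem_univ j) h
        · exact h
      intro j k
      rw [all j, all k]
  · intro x hx hs
    have hx' : ∀ j, x j = 0 ∨ x j = 1 ∨ x j = -1 := by
      intro j; have := hx j
      simpa only [mem_union, mem_insert, mem_singleton] using this
    obtain ⟨n0, np, nm, e0, ep, em, hsum, hc⟩ := base_count hm0 x hx' hs
    have e : (univ.filter (fun j => x j ∈ ({0} : Finset ℤ))).card = n0 := by
      rw [e0]; congr 1; apply filter_congr; intro j _; simp
    rw [e]
    obtain ⟨c, hc1⟩ := hm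
    rcases hc with h | h | h
    · right; exact ⟨c - nm, by omega⟩
    · left; omega
    · left; omega

end Pool.Agent.EGZ17
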